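import Pool.Agent.Helper68.TG.Goals

/-!
# Project TG (MP_a41896_nt), part FLAT, packet PNL: the polynomial `P(α; X)`
-/

set_option autoImplicit false

open MvPolynomial

namespace Pool.Agent.Helper57.TG.PNL

open Pool.Agent.Helper68.TG

/-- ring homomorphisms and values of integral polynomials -/
theorem map_aeval_int {τ S T : Type} [CommRing S] [CommRing T] [Algebra ℤ S] [Algebra ℤ T]
    (h : S →+* T) (v : τ → S)
    (N : MvPolynomial τ ℤ) : h (aeval v N) = aeval (fun i => h (v i)) N := by
  induction N using MvPolynomial.induction_on with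
  | C a => rw [aeval_C, aeval_C, eq_intCast (algebraMap ℤ S), eq_intCast (algebraMap ℤ T), map_intCast]
  | add p q hp hq => rw [map_add, map_add, map_add, hp, hq]
  | mul_X p i hp => rw [map_mul, map_mul, map_mul, hp, aeval_X, aeval_X]

theorem degreeOf_pderiv_le {A σ : Type} [CommRing A] (p : MvPolynomial σ A) (b i : σ) :
    degreeOf i (pderiv b p) ≤ degreeOf i p := by
  classical
  rw [degreeOf_le_iff]
  intro m hm
  rw [mem_support_iff, coeff_pderiv] at hm
  have h1 : m + Finsupp.single b 1 ∈ p.support := by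
    rw [mem_support_iff]
    intro h0
    apply hm
    rw [h0, zero_mul]
  have h2 := monomial_le_degreeOf i h1
  rw [Finsupp.add_apply] at h2
  omega

/-- degrees of the values of integral polynomials -/
theorem deg_aeval {τ σ : Type} (N : MvPolynomial τ ℤ) (D : ℕ) :
    ∃ D1 : ℕ, ∀ (A : Type) [CommRing A] (v : τ → MvPolynomial σ A),
      (∀ k j, degreeOf j (v k) ≤ D) → ∀ j, degreeOf j (aeval v N) ≤ D1 := by
  induction N using MvPolynomial.induction_on with
  | C a =>
    refine ⟨0, fun A _ v _ j => ?_⟩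
    have h1 : aeval v (C a : MvPolynomial τ ℤ) = (C (a : A) : MvPolynomial σ A) := by simp
    rw [h1, degreeOf_C]
  | add p q hp hq =>
    obtain ⟨D1, h1⟩ := hp
    obtain ⟨D2, h2⟩ := hq
    refine ⟨max D1 D2, fun A _ v hv j => ?_⟩
    rw [map_add]
    exact (degreeOf_add_le _ _ _).trans (max_le_max (h1 A v hv j) (h2 A v hv j))
  | mul_X p i hp =>
    obtain ⟨D1, h1⟩ := hp
    refine ⟨D1 + D, fun A _ v hv j => ?_⟩
    rw [map_mul, aeval_X]
    exact (degreeOf_mul_le _ _ _).trans (Nat.add_le_add (h1 A v hv j) (hv i j))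

theorem t_PNL : PNL := by
  intro σ _ _ N
  refine ⟨?_, ?_, ?_⟩
  · intro A B _ _ φ b g α
    rw [PN, map_aeval_int, PN]
    congr 2
    funext s
    rcases s with i | i
    · rfl
    · simp only [Sum.elim_inr]
      rw [map_mul, map_C, pderiv_map]
  · intro hN A B _ _ φ b g α x Ψ hΨ
    have h1 := map_aeval_int (eval₂Hom φ x) (Sum.elim b (fun i => C (α i) * pderiv i g)) N
    have h2 := hN B Ψ (fun i => φ (α i) * eval₂ φ x (pderiv i g))
    rw [← h2]
    change eval₂Hom φ x (PN N b g α) = _
    rw [PN, h1]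
    congr 2
    funext s
    rcases s with i | i
    · simp only [Sum.elim_inl]
      exact (hΨ i).symm
    · simp only [Sum.elim_inr, map_mul, coe_eval₂Hom, eval₂_C]
  · intro D
    obtain ⟨D1, h1⟩ := deg_aeval (σ := σ) N D
    refine ⟨D1, fun A _ b g α hb hg j => h1 A _ ?_ j⟩
    rintro (i | i) k
    · exact hb i k
    · simp only [Sum.elim_inr]
      refine (degreeOf_mul_le _ _ _).trans ?_
      rw [degreeOf_C, zero_add]
      exact (degreeOf_pderiv_le g i k).trans (hg k)

end Pool.Agent.Helper57.TG.PNL
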