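import Pool.Agent.Helper3.TG.GoalsTr

/-!
# Project TG (MP_a41896_nt), TRANSFER, packet ENL: the enlarged system
-/

set_option autoImplicit false

open MvPolynomial

namespace Pool.Agent.Helper57.TG.ENL

open WeierstrassCurve
open Pool.Agent.Helper29.BL Pool.Agent.Helper92.Ru Pool.Agent.Helper42.SG
open Pool.Agent.Helper5.UN (hv CodimGT cH)
open Pool.Agent.Helper3.TG

noncomputable section

/-- the monomial with the exponents `k` -/
def mon (K : Type) [Field K] {σ : Type} [Fintype σ] (k : σ → ℕ) : MvPolynomial σ K :=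
  monomial (Finsupp.equivFunOnFinite.symm k) (1 : K)

section mon

variable {K : Type} [Field K] {σ : Type} [Fintype σ]

theorem degreeOf_mon (k : σ → ℕ) (i : σ) : degreeOf i (mon K k) = k i := by
  rw [mon, degreeOf_monomial_eq _ _ one_ne_zero]
  rfl

theorem hv_mon {Ω : Type} [Field Ω] (φ : K →+* Ω) (E k : σ → ℕ) (y : σ → Fin 2 → Ω) :
    hv φ E (mon K k) y = ∏ i, (y i 0 ^ k i * y i 1 ^ (E i - k i)) := by
  classical
  rw [hv, mon, support_monomial, if_neg one_ne_zero, Finset.sum_singleton, coeff_monomial,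
    if_pos rfl, map_one, one_mul]
  rfl

theorem eval_mon (k : σ → ℕ) (x : σ → K) : eval x (mon K k) = ∏ i, x i ^ k i := by
  rw [mon, eval_monomial, one_mul, Finsupp.prod_fintype _ _ (fun i => pow_zero _)]
  rfl

/-- the monomial which does not vanish at `y` -/
theorem hv_mon_ne {Ω : Type} [Field Ω] (φ : K →+* Ω) (E : σ → ℕ) (β : σ → Bool)
    (y : σ → Fin 2 → Ω) (hy : ∀ i, y i 1 = 1 ∨ y i = ![1, 0])
    (hβ : ∀ i, β i = true ↔ y i 0 ≠ 0) :
    hv φ E (mon K (fun i => if β i then E i else 0)) y ≠ 0 := by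
  rw [hv_mon]
  refine Finset.prod_ne_zero_iff.2 fun i _ => ?_
  by_cases h : y i 0 = 0
  · have h1 : β i = false := by
      by_contra h2
      exact (hβ i).1 (by simpa using h2) h
    have h2 : y i 1 = 1 := by
      rcases hy i with h3 | h3
      · exact h3
      · rw [h3] at h
        simp at h
    rw [h1, h2]
    simp
  · have h1 : β i = true := (hβ i).2 h
    rw [h1]
    simp only [if_true, Nat.sub_self, pow_zero, mul_one]
    exact pow_ne_zero _ h

end mon

theorem Mv_ge_one {K : Type} [Field K] (v : AbsoluteValue K ℝ) (x : K) : 1 ≤ Mv v x :=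
  le_max_left _ _

theorem eval_mon_le {K : Type} [Field K] {σ : Type} [Fintype σ] (v : AbsoluteValue K ℝ)
    (E : σ → ℕ) (β : σ → Bool) (x : σ → K) :
    v (eval x (mon K (fun i => if β i then E i else 0))) ≤ ∏ i, Mv v (x i) ^ E i := by
  rw [eval_mon, map_prod]
  refine Finset.prod_le_prod (fun i _ => v.nonneg _) fun i _ => ?_
  rw [map_pow]
  have h1 : v (x i) ≤ Mv v (x i) := le_max_right _ _
  by_cases h : β i
  · rw [if_pos h]
    exact pow_le_pow_left₀ (v.nonneg _) h1 _
  · rw [if_neg h, pow_zero]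
    exact one_le_pow₀ (Mv_ge_one v _)

theorem eval_ThP {K : Type} [Field K] {σ : Type} (w : Affine K) (a b c : σ) (x : σ → K) :
    eval x (ThP w a b c) = TH w (x a) (x b) (x c) := by
  simp only [ThP, TH, map_sub, map_add, map_mul, map_pow, eval_X, WeierstrassCurve.map_b₂,
    WeierstrassCurve.map_b₄, WeierstrassCurve.map_b₆, WeierstrassCurve.map_b₈, eval_C, map_ofNat]

theorem t (h1 : HVM) (h2 : HVT) (h3 : THN) : ENL := by
  classical
  intro K _ _ w hw σ _ _ D ι _ f hf hC a b hab
  obtain ⟨E0, hE0⟩ : ∃ E0 : Option σ → ℕ, E0 = fun o => o.elim 0 (fun _ => D) := ⟨_, rfl⟩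
  obtain ⟨E1, hE1⟩ : ∃ E1 : Option σ → ℕ, E1 = fun o => o.elim (D + 2) (fun _ => 2) := ⟨_, rfl⟩
  obtain ⟨F0, hF0⟩ : ∃ F0 : Option σ → ℕ,
    F0 = fun i => if i = some a ∨ i = some b ∨ i = none then 2 else 0 := ⟨_, rfl⟩
  obtain ⟨F1, hF1⟩ : ∃ F1 : Option σ → ℕ,
    F1 = fun i => if i = some a ∨ i = some b ∨ i = none then D else D + 2 := ⟨_, rfl⟩
  have hE : ∀ o, E0 o + E1 o = D + 2 := by
    intro o
    rw [hE0, hE1]
    rcases o with _ | i
    · simp
    · simp
  have hF : ∀ o, F0 o + F1 o = D + 2 := by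
    intro o
    rw [hF0, hF1]
    by_cases h : o = some a ∨ o = some b ∨ o = none
    · simp only [if_pos h]; omega
    · simp only [if_neg h]; omega
  have hab' : (some a : Option σ) ≠ some b := fun h => hab (Option.some_injective _ h)
  obtain ⟨hT1, hT2⟩ := h2 K w (Option σ) (some a) (some b) none hab' (by simp) (by simp)
  have hd0 : ∀ j o, degreeOf o (rename some (f j)) ≤ E0 o := by
    intro j o
    rw [hE0]
    rcases o with _ | i
    · change degreeOf none (rename (some : σ → Option σ) (f j)) ≤ 0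
      rw [degreeOf_le_iff]
      intro m hm
      rw [support_rename_of_injective (Option.some_injective _)] at hm
      obtain ⟨m', -, rfl⟩ := Finset.mem_image.1 hm
      exact (Finsupp.mapDomain_of_notMem_range _ _ (by simp)).le
    · change degreeOf (some i) (rename some (f j)) ≤ D
      rw [degreeOf_rename_of_injective (Option.some_injective _)]
      exact hf j i
  have hd1 : ∀ (E : Option σ → ℕ) (β : Option σ → Bool) (o : Option σ),
      degreeOf o (mon K (fun i => if β i then E i else 0)) ≤ E o := by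
    intro E β o
    rw [degreeOf_mon]
    split_ifs
    · exact le_refl _
    · exact Nat.zero_le _
  refine ⟨D + 2, (ι × (Option σ → Bool)) ⊕ (Option σ → Bool), inferInstance,
    Sum.elim (fun p => rename some (f p.1) * mon K (fun i => if p.2 i then E1 i else 0))
      (fun β => ThP w (some a) (some b) none * mon K (fun i => if β i then F1 i else 0)),
    ?_, ?_, ?_⟩
  · rintro (⟨j, β⟩ | β) o
    · simp only [Sum.elim_inl]
      refine (degreeOf_mul_le _ _ _).trans ?_
      rw [← hE o]
      exact Nat.add_le_add (hd0 j o) (hd1 E1 β o)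
    · simp only [Sum.elim_inr]
      refine (degreeOf_mul_le _ _ _).trans ?_
      rw [← hF o]
      refine Nat.add_le_add ?_ (hd1 F1 β o)
      rw [hF0]
      exact hT1 o
  · intro Ω _ _ y hy hz
    obtain ⟨β, hβ⟩ : ∃ β : Option σ → Bool, ∀ i, β i = true ↔ y i 0 ≠ 0 :=
      ⟨fun i => decide (y i 0 ≠ 0), fun i => by simp⟩
    have hzf : ∀ j, hv (algebraMap K Ω) (fun _ => D) (f j) (fun i => y (some i)) = 0 := by
      intro j
      have h4 := hz (Sum.inl (j, β))
      simp only [Sum.elim_inl] at h4
      have h5 : (fun _ : Option σ => D + 2) = fun o => E0 o + E1 o := funext fun o => (hE o).symm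
      rw [h5, h1.1 K Ω (algebraMap K Ω) (Option σ) E0 E1 _ _ y (hd0 j) (hd1 E1 β)] at h4
      rcases mul_eq_zero.1 h4 with h6 | h6
      · rw [h1.2 K Ω (algebraMap K Ω) σ (Option σ) some E0 (f j) y
          (Option.some_injective _)] at h6
        have h7 : ∏ t ∈ Finset.univ.filter (fun t : Option σ => ∀ i, some i ≠ t),
            y t 1 ^ E0 t = 1 := by
          refine Finset.prod_eq_one fun t ht => ?_
          have h8 := (Finset.mem_filter.1 ht).2
          rcases t with _ | i
          · rw [hE0]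
            exact pow_zero _
          · exact absurd rfl (h8 i)
        rw [h7, mul_one] at h6
        rw [hE0] at h6
        exact h6
      · exact absurd h6 (hv_mon_ne _ E1 β y hy hβ)
    have hzT : THh (w.map (algebraMap K Ω)) (y (some a)) (y (some b)) (y none) = 0 := by
      have h4 := hz (Sum.inr β)
      simp only [Sum.elim_inr] at h4
      have h5 : (fun _ : Option σ => D + 2) = fun o => F0 o + F1 o := funext fun o => (hF o).symm
      rw [h5, h1.1 K Ω (algebraMap K Ω) (Option σ) F0 F1 _ _ y
        (fun o => by rw [hF0]; exact hT1 o) (hd1 F1 β)] at h4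
      rcases mul_eq_zero.1 h4 with h6 | h6
      · rw [← hT2 Ω y]
        rw [hF0] at h6
        exact h6
      · exact absurd h6 (hv_mon_ne _ F1 β y hy hβ)
    obtain ⟨T, hTc, hTa⟩ := hC Ω (fun i => y (some i)) (fun i => hy (some i)) hzf
    refine ⟨T, ?_, ?_⟩
    · rw [Fintype.card_option]
      omega
    · intro o
      rcases o with _ | i
      · exact h3 K w hw Ω _ (y (some a)) (y (some b)) (y none) (hy _) (hy _) (hy _) hzT
          (hTa a) (hTa b)
      · exact hTa i
  · intro v x y hTH
    obtain ⟨S, hS⟩ : ∃ S : ℝ, S = ⨆ j, v (eval x (f j)) := ⟨_, rfl⟩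
    obtain ⟨A, hA⟩ : ∃ A : ℝ, A = ∏ i, Mv v (x i) := ⟨_, rfl⟩
    have hS0 : 0 ≤ S := by
      rw [hS]
      exact Real.iSup_nonneg fun j => v.nonneg _
    have hSle : ∀ j, v (eval x (f j)) ≤ S := by
      intro j
      rw [hS]
      exact le_ciSup (f := fun j => v (eval x (f j))) (Set.finite_range _).bddAbove j
    have hA0 : 0 ≤ A := by
      rw [hA]
      exact Finset.prod_nonneg fun i _ => zero_le_one.trans (Mv_ge_one v _)
    have hY0 : 0 ≤ Mv v y := zero_le_one.trans (Mv_ge_one v _)
    rw [← hS, ← hA]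
    have hmain : (⨆ j, v (eval (fun o : Option σ => o.elim y x) ((Sum.elim
        (fun p : ι × (Option σ → Bool) => rename some (f p.1) *
          mon K (fun i => if p.2 i then E1 i else 0))
        (fun β => ThP w (some a) (some b) none * mon K (fun i => if β i then F1 i else 0)) :
          (ι × (Option σ → Bool)) ⊕ (Option σ → Bool) → MvPolynomial (Option σ) K) j))) ≤
        S * (A ^ 2 * Mv v y ^ (D + 2)) := by
      refine Real.iSup_le ?_ (by positivity)
      rintro (⟨j, β⟩ | β)
      · simp only [Sum.elim_inl]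
        rw [map_mul, map_mul, eval_rename]
        have h5 := eval_mon_le v E1 β (fun o : Option σ => o.elim y x)
        have h6 : ∏ o : Option σ, Mv v (o.elim y x) ^ E1 o = A ^ 2 * Mv v y ^ (D + 2) := by
          rw [Fintype.prod_option, hE1, hA, ← Finset.prod_pow]
          simp only [Option.elim]
          ring
        rw [h6] at h5
        exact mul_le_mul (hSle j) h5 (v.nonneg _) hS0
      · simp only [Sum.elim_inr]
        rw [map_mul, eval_ThP]
        simp only [Option.elim]
        rw [hTH, zero_mul, map_zero]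
        positivity
    calc _ ≤ (S * (A ^ 2 * Mv v y ^ (D + 2))) * A ^ D :=
          mul_le_mul_of_nonneg_right hmain (pow_nonneg hA0 _)
      _ = A ^ (D + 2) * Mv v y ^ (D + 2) * S := by ring

end

end Pool.Agent.Helper57.TG.ENL
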