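import Pool.Agent.Helper92.TG.GoalsX
import Pool.Agent.Helper25.TG.THX
import Pool.Agent.Helper12.SGB.All

/-!
# Project TG (MP_a41896_nt), CM version: DEGX (`deg B < deg A`)
-/

set_option autoImplicit false

open Polynomial

namespace Pool.Agent.Helper57.TG.DEGX

section val

variable {K Ω : Type} [Field K] [Field Ω] [Algebra K Ω] (V : ValuationSubring Ω)

theorem v_one {z : Ω} (h1 : z ∈ V) (h2 : z⁻¹ ∈ V) (h0 : z ≠ 0) : V.valuation z = 1 := by
  have a1 := (V.valuation_le_one_iff z).2 h1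
  have a2 := (V.valuation_le_one_iff z⁻¹).2 h2
  have a3 : V.valuation z * V.valuation z⁻¹ = 1 := by
    rw [← map_mul, mul_inv_cancel₀ h0, map_one]
  refine le_antisymm a1 ?_
  calc (1 : V.ValueGroup) = V.valuation z * V.valuation z⁻¹ := a3.symm
    _ ≤ V.valuation z * 1 := by gcongr
    _ = V.valuation z := mul_one _

theorem zero_of_lt {k : IntermediateField K Ω} (hk : ∀ z ∈ k, z ∈ V) {z : Ω} (hz : z ∈ k)
    (h : V.valuation z < 1) : z = 0 := by
  by_contra h0
  exact absurd (v_one V (hk z hz) (hk _ (inv_mem hz)) h0) h.ne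

theorem lt_mul {a b : Ω} (ha : V.valuation a < 1) (hb : b ∈ V) : V.valuation (a * b) < 1 := by
  rw [map_mul]
  calc V.valuation a * V.valuation b ≤ V.valuation a * 1 := by
        gcongr
        exact (V.valuation_le_one_iff b).2 hb
    _ = V.valuation a := mul_one _
    _ < 1 := ha

theorem lt_add {a b : Ω} (ha : V.valuation a < 1) (hb : V.valuation b < 1) :
    V.valuation (a + b) < 1 := V.valuation.map_add_lt ha hb

theorem v_pol (hK : ∀ c : K, algebraMap K Ω c ∈ V) {s : Ω} (hs : s ∉ V) (p : K[X]) (hp : p ≠ 0) :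
    V.valuation (aeval s p) = V.valuation s ^ p.natDegree := by
  have h1 : 1 < V.valuation s := by
    rw [← not_le]
    exact fun h => hs ((V.valuation_le_one_iff s).1 h)
  have hc : ∀ c : K, c ≠ 0 → V.valuation (algebraMap K Ω c) = 1 := fun c hc =>
    v_one V (hK c) (by rw [← map_inv₀]; exact hK _) (by simpa using hc)
  induction hn : p.natDegree using Nat.strong_induction_on generalizing p with
  | _ n ih =>
    have e1 : aeval s p = aeval s p.eraseLead + algebraMap K Ω p.leadingCoeff * s ^ n := by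
      conv_lhs => rw [← p.eraseLead_add_C_mul_X_pow]
      rw [map_add, map_mul, aeval_C, map_pow, aeval_X, hn]
    have e2 : V.valuation (algebraMap K Ω p.leadingCoeff * s ^ n) = V.valuation s ^ n := by
      rw [map_mul, hc _ (leadingCoeff_ne_zero.2 hp), one_mul, map_pow]
    rw [e1]
    by_cases h0 : p.eraseLead = 0
    · rw [h0, map_zero, zero_add, e2]
    · have h2 : p.eraseLead.natDegree < n := by
        rcases p.eraseLead_natDegree_lt_or_eraseLead_eq_zero with h | h
        · omega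
        · exact absurd h h0
      have h3 := ih _ h2 p.eraseLead h0 rfl
      rw [V.valuation.map_add_eq_of_lt_right, e2]
      rw [e2, h3]
      exact pow_lt_pow_right₀ h1 h2

theorem v_pol_lt (hK : ∀ c : K, algebraMap K Ω c ∈ V) {s : Ω} (hs : s ∉ V) (p q : K[X])
    (hq : q ≠ 0) (h : p.degree < q.degree) :
    V.valuation (aeval s p) < V.valuation (aeval s q) := by
  have h1 : 1 < V.valuation s := by
    rw [← not_le]
    exact fun h => hs ((V.valuation_le_one_iff s).1 h)
  rw [v_pol V hK hs q hq]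
  by_cases h0 : p = 0
  · rw [h0, map_zero, map_zero]
    exact pow_pos (zero_lt_one.trans h1) _
  · rw [v_pol V hK hs p h0]
    exact pow_lt_pow_right₀ h1 (natDegree_lt_natDegree h0 h)

theorem mem_pol (hK : ∀ c : K, algebraMap K Ω c ∈ V) {s : Ω} (hs : s ∈ V) (p : K[X]) :
    aeval s p ∈ V := by
  induction p using Polynomial.induction_on' with
  | add p q hp hq => rw [map_add]; exact add_mem hp hq
  | monomial n a =>
    rw [aeval_monomial]
    exact mul_mem (hK a) (pow_mem hs n)

theorem v_congr (hK : ∀ c : K, algebraMap K Ω c ∈ V) {s t : Ω} (hs : s ∈ V) (ht : t ∈ V)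
    (h : V.valuation (s - t) < 1) (p : K[X]) : V.valuation (aeval s p - aeval t p) < 1 := by
  induction p using Polynomial.induction_on' with
  | add p q hp hq =>
    have : aeval s (p + q) - aeval t (p + q) =
        (aeval s p - aeval t p) + (aeval s q - aeval t q) := by
      rw [map_add, map_add]
      ring
    rw [this]
    exact lt_add V hp hq
  | monomial n a =>
    rw [aeval_monomial, aeval_monomial, ← mul_sub, mul_comm]
    refine lt_mul V ?_ (hK a)
    induction n with
    | zero =>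
      rw [pow_zero, pow_zero, sub_self, map_zero]
      exact zero_lt_one
    | succ n ih =>
      have : s ^ (n + 1) - t ^ (n + 1) = (s ^ n - t ^ n) * s + (s - t) * t ^ n := by ring
      rw [this]
      exact lt_add V (lt_mul V ih hs) (lt_mul V h (pow_mem ht n))

end val

theorem const_of_alg {K Ω : Type} [Field K] [Field Ω] [Algebra K Ω] {x u : Ω}
    (hx : Transcendental K x) {A B : K[X]} (hB : B ≠ 0) (hu : u * aeval x B = aeval x A)
    (ha : IsAlgebraic K u) : ∃ c, A = C c * B := by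
  have hi : Function.Injective (aeval x : K[X] →ₐ[K] Ω) := transcendental_iff_injective.1 hx
  have hBx : aeval x B ≠ 0 := fun h => hB (hi (by rw [h, map_zero]))
  have hn : nonZeroDivisors K[X] ≤ (nonZeroDivisors Ω).comap (aeval x : K[X] →ₐ[K] Ω) :=
    nonZeroDivisors_le_comap_nonZeroDivisors_of_injective _ hi
  set φ := RatFunc.liftAlgHom (aeval x : K[X] →ₐ[K] Ω) hn with hφ
  have h1 : φ (algebraMap _ _ A / algebraMap _ _ B) = u := by
    rw [hφ, RatFunc.liftAlgHom_apply_div, div_eq_iff hBx]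
    exact hu.symm
  have h2 : IsAlgebraic K (algebraMap K[X] (RatFunc K) A / algebraMap K[X] (RatFunc K) B) := by
    rw [← isAlgebraic_algHom_iff φ (RatFunc.liftAlgHom_injective _ hi), h1]
    exact ha
  have h3 : ∃ c, algebraMap K[X] (RatFunc K) A / algebraMap K[X] (RatFunc K) B = RatFunc.C c := by
    by_contra h
    exact RatFunc.transcendental_of_ne_C _ h h2
  obtain ⟨c, hc⟩ := h3
  refine ⟨c, ?_⟩
  have hB' : algebraMap K[X] (RatFunc K) B ≠ 0 := by
    simpa using hB
  rw [div_eq_iff hB'] at hc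
  refine RatFunc.algebraMap_injective K ?_
  rw [hc, map_mul, RatFunc.algebraMap_C]

open WeierstrassCurve
open Pool.Agent.Helper29.BL Pool.Agent.Helper42.SG
open Pool.Agent.Helper60.T3 (WL zd IP)
open Pool.Agent.Helper42.TG (Endo)
open Pool.Agent.Helper92.TG
open Pool.Agent.Helper3.TG (TH)

section points

variable {K : Type} [Field K] {W : Affine K}

theorem xc_mp {F F' : Type} [Field F] [DecidableEq F] [Algebra K F] [Field F'] [DecidableEq F']
    [Algebra K F'] (j : F →ₐ[K] F') (P : (WL F W).Point) : xc (mp j P) = j (xc P) := by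
  cases P with
  | zero => exact (map_zero j).symm
  | some x y h => rfl

theorem ps_mp {F F' : Type} [Field F] [DecidableEq F] [Algebra K F] [Field F'] [DecidableEq F']
    [Algebra K F'] (j : F →ₐ[K] F') (P : (WL F W).Point) : ps (mp j P) = j (ps P) := by
  cases P with
  | zero => exact (map_zero j).symm
  | some x y h =>
    show 2 * j y + algebraMap K F' W.a₁ * j x + algebraMap K F' W.a₃ =
      j (2 * y + algebraMap K F W.a₁ * x + algebraMap K F W.a₃)
    rw [map_add, map_add, map_mul, map_mul, map_ofNat, AlgHom.commutes, AlgHom.commutes]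

theorem ex_pt {L : Type} [Field L] [IsAlgClosed L] [CharZero L] (W : Affine L) [W.IsElliptic]
    (ξ : L) : ∃ P : W.Point, P ≠ 0 ∧ xc P = ξ := by
  obtain ⟨s, hs⟩ := IsAlgClosed.exists_pow_nat_eq (Bf W ξ) (n := 2) (by norm_num)
  have h : W.Nonsingular ξ ((s - (W.a₁ * ξ + W.a₃)) / 2) := by
    rw [← Affine.equation_iff_nonsingular, Affine.equation_iff]
    have h2 : (2 : L) ≠ 0 := two_ne_zero
    simp only [Bf, WeierstrassCurve.b₂, WeierstrassCurve.b₄, WeierstrassCurve.b₆] at hs
    field_simp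
    linear_combination hs
  exact ⟨Affine.Point.some _ _ h, Affine.Point.some_ne_zero h, rfl⟩

end points

/-- the equation of `u` -/
noncomputable def qq {K : Type} [Field K] (W : Affine K) (c : K) : K[X] :=
  X ^ 4 - C (4 * c) * X ^ 3 - C (W.b₂ * c + W.b₄) * X ^ 2 - C (2 * W.b₄ * c + 2 * W.b₆) * X -
    C (W.b₆ * c + W.b₈)

theorem qq_ne {K : Type} [Field K] (W : Affine K) (c : K) : qq W c ≠ 0 := by
  intro h
  have h1 : (qq W c).coeff 4 = 1 := by
    unfold qq
    rw [coeff_sub, coeff_sub, coeff_sub, coeff_sub, coeff_C_mul, coeff_C_mul, coeff_C_mul,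
      coeff_X_pow, coeff_X_pow, coeff_X_pow, coeff_X, coeff_C]
    norm_num
  rw [h] at h1
  simp at h1

theorem qq_eval {K Ω : Type} [Field K] [Field Ω] [Algebra K Ω] (W : Affine K) (c : K) (u : Ω) :
    aeval u (qq W c) = TH (WL Ω W) u (algebraMap K Ω c) u := by
  simp only [qq, TH, map_sub, map_add, map_mul, map_pow, aeval_X, aeval_C, map_ofNat,
    WeierstrassCurve.map_b₂, WeierstrassCurve.map_b₄, WeierstrassCurve.map_b₆,
    WeierstrassCurve.map_b₈]
  ring

theorem th_diff {R : Type} [CommRing R] (W : WeierstrassCurve R) (u y t c : R) :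
    TH W u y t - TH W u c u =
      (y - c) * (u ^ 2 * (y + c) + (y + c) * t ^ 2 - 2 * (u * t) * (u + t + (y + c)) -
        W.b₂ * (u * t) - W.b₄ * (u + t) - W.b₆) +
      (t - u) * (c ^ 2 * (t + u) + (t + u) * u ^ 2 - 2 * (u * c) * (u + c + (t + u)) -
        W.b₂ * (u * c) - W.b₄ * (c + u) - W.b₆) := by
  simp only [TH]
  ring

theorem t (hCONT : CONT) (hEXTS : EXTS) : Pool.Agent.Helper92.TG.DEGX := by
  intro K _ _ W hW ρ A B r hco hB hWr hGF
  have := hW
  by_contra hdeg
  push Not at hdeg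
  let _ : DecidableEq (AlgebraicClosure (RatFunc K)) := Classical.decEq _
  obtain ⟨x₀, hx₀⟩ : ∃ x₀ : AlgebraicClosure (RatFunc K), Transcendental K x₀ :=
    ⟨algebraMap (RatFunc K) _ RatFunc.X,
      (transcendental_algebraMap_iff (algebraMap (RatFunc K) _).injective).2
        RatFunc.transcendental_X⟩
  have : CharZero (AlgebraicClosure (RatFunc K)) :=
    charZero_of_injective_algebraMap (algebraMap K _).injective
  obtain ⟨P₀, hP₀, hP₀x⟩ := ex_pt (WL (AlgebraicClosure (RatFunc K)) W) x₀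
  obtain ⟨Ω, _, _, _, j, V, Q, hV, hQV, hQt, hPQ⟩ := hEXTS K W hW (AlgebraicClosure (RatFunc K))
  have hji : Function.Injective j := j.toRingHom.injective
  have : CharZero Ω := charZero_of_injective_algebraMap (algebraMap K Ω).injective
  obtain ⟨k, hk⟩ : ∃ k : IntermediateField K Ω, k = j.fieldRange := ⟨_, rfl⟩
  have hjk : ∀ c, j c ∈ k := fun c => hk ▸ ⟨c, rfl⟩
  have hkV : ∀ z ∈ k, z ∈ V := by
    intro z hz
    rw [hk] at hz
    obtain ⟨c, rfl⟩ := hz
    exact hV c
  have hKV : ∀ c : K, algebraMap K Ω c ∈ V := fun c => hkV _ (k.algebraMap_mem c)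
  have hmk : ∀ R, IP (k : Set Ω) (mp (W := W) j R) := by
    intro R
    refine Or.inr ⟨?_, ?_⟩
    · rw [xc_mp]; exact hjk _
    · rw [ps_mp]; exact hjk _
  obtain ⟨P, hP⟩ : ∃ P : (WL Ω W).Point, P = mp j P₀ := ⟨_, rfl⟩
  have hx : xc P = j x₀ := by rw [hP, xc_mp, hP₀x]
  have hxt : Transcendental K (xc P) := by
    rw [hx]
    exact fun h => hx₀ ((isAlgebraic_algHom_iff j hji).1 h)
  have hP0 : P ≠ 0 := by
    intro h
    rw [h] at hxt
    exact hxt isAlgebraic_zero
  obtain ⟨g1, g2, -⟩ := hGF Ω P hxt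
  obtain ⟨g3, g4, -⟩ := hGF Ω Q hQt
  obtain ⟨g5, g6, -⟩ := hGF Ω (P + Q) (by rw [hP]; exact hPQ P₀)
  have hρP : ρ.f Ω P = mp j (ρ.f (AlgebraicClosure (RatFunc K)) P₀) := by
    rw [hP]; exact ρ.nat _ Ω j P₀
  have hρa : ρ.f Ω P + ρ.f Ω Q = ρ.f Ω (P + Q) := ((ρ.f Ω).map_add P Q).symm
  obtain ⟨-, c1, -⟩ := hCONT K Ω W V k hkV P Q hP0 (hP ▸ hmk P₀) hQV
  have th := Pool.Agent.Helper25.TG.THX.t Pool.Agent.Helper12.SGB.th_ELAW Ω (WL Ω W) (ρ.f Ω P)
    (ρ.f Ω Q) two_ne_zero g1 g3 (by rw [hρa]; exact g5)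
  rw [hρa] at th
  have hu : ∃ u₀, xc (ρ.f Ω P) = j u₀ := ⟨_, by rw [hρP, xc_mp]⟩
  have hxk : xc P ∈ k := hx ▸ hjk _
  generalize xc (ρ.f Ω P) = u at *
  generalize xc (ρ.f Ω Q) = s' at *
  generalize xc (ρ.f Ω (P + Q)) = T' at *
  generalize xc (P + Q) = T at *
  generalize xc Q = s at *
  generalize xc P = x at *
  obtain ⟨u₀, hu⟩ := hu
  have huk : u ∈ k := hu ▸ hjk u₀
  have huV : u ∈ V := hkV u huk
  have hxV : x ∈ V := hkV x hxk
  -- the constant
  obtain ⟨c, hc⟩ : ∃ c : K, c = A.coeff B.natDegree / B.leadingCoeff := ⟨_, rfl⟩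
  have hlc : B.leadingCoeff ≠ 0 := leadingCoeff_ne_zero.2 hB
  have hR : (A - C c * B).degree < B.degree := by
    rw [degree_eq_natDegree hB, degree_lt_iff_coeff_zero]
    intro m hm
    rcases Nat.eq_or_lt_of_le hm with h | h
    · rw [← h, coeff_sub, coeff_C_mul, hc, coeff_natDegree, div_mul_cancel₀ _ hlc, sub_self]
    · rw [coeff_sub, coeff_C_mul, coeff_eq_zero_of_natDegree_lt h,
        coeff_eq_zero_of_natDegree_lt (lt_of_le_of_lt hdeg h), mul_zero, sub_zero]
  have hs1 : V.valuation (s' - algebraMap K Ω c) < 1 := by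
    have e1 : (s' - algebraMap K Ω c) * aeval s B = aeval s (A - C c * B) := by
      rw [map_sub, map_mul, aeval_C, ← g4]
      ring
    have e2 := v_pol_lt V hKV hQV (A - C c * B) B hB hR
    rw [← e1, map_mul] at e2
    by_contra h
    rw [not_lt] at h
    exact absurd e2 (not_lt.2 (le_mul_of_one_le_left' h))
  have hsV : s' ∈ V := by
    have : s' = (s' - algebraMap K Ω c) + algebraMap K Ω c := by ring
    rw [this]
    exact add_mem ((V.valuation_le_one_iff _).1 hs1.le) (hKV c)
  have hTV : T ∈ V := by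
    have : T = (T - x) + x := by ring
    rw [this]
    exact add_mem ((V.valuation_le_one_iff _).1 c1.le) hxV
  have hBx0 : aeval x B ≠ 0 := fun h => hxt ⟨B, hB, h⟩
  have hBxk : aeval x B ∈ k := by
    have h : ∃ x', x = j x' := by
      rw [hk] at hxk
      obtain ⟨c, hc⟩ := hxk
      exact ⟨c, hc.symm⟩
    obtain ⟨x', hx'⟩ := h
    rw [hx', aeval_algHom_apply]
    exact hjk _
  have hBx1 : V.valuation (aeval x B) = 1 :=
    v_one V (hkV _ hBxk) (hkV _ (inv_mem hBxk)) hBx0
  have hBT1 : V.valuation (aeval T B) = 1 := by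
    rw [← hBx1]
    refine V.valuation.map_eq_of_sub_lt ?_
    rw [hBx1]
    exact v_congr V hKV hTV hxV c1 B
  have hT1 : V.valuation (T' - u) < 1 := by
    have e1 : (T' - u) * aeval T B =
        (aeval T A - aeval x A) + (aeval T B - aeval x B) * (-u) := by
      rw [← g6, ← g2]
      ring
    have e2 : V.valuation ((T' - u) * aeval T B) < 1 := by
      rw [e1]
      exact lt_add V (v_congr V hKV hTV hxV c1 A)
        (lt_mul V (v_congr V hKV hTV hxV c1 B) (neg_mem huV))
    rwa [map_mul, hBT1, mul_one] at e2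
  have hT'V : T' ∈ V := by
    have : T' = (T' - u) + u := by ring
    rw [this]
    exact add_mem ((V.valuation_le_one_iff _).1 hT1.le) huV
  -- the relation
  have h2V : (2 : Ω) ∈ V := by
    have : (2 : Ω) = 1 + 1 := by norm_num
    rw [this]
    exact add_mem (one_mem _) (one_mem _)
  have hb2 : (WL Ω W).b₂ ∈ V := by rw [WeierstrassCurve.map_b₂]; exact hKV _
  have hb4 : (WL Ω W).b₄ ∈ V := by rw [WeierstrassCurve.map_b₄]; exact hKV _
  have hb6 : (WL Ω W).b₆ ∈ V := by rw [WeierstrassCurve.map_b₆]; exact hKV _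
  have hcV := hKV c
  have hlt : V.valuation (aeval u (qq W c)) < 1 := by
    rw [qq_eval]
    have e := th_diff (WL Ω W) u s' T' (algebraMap K Ω c)
    rw [th, zero_sub] at e
    rw [← Valuation.map_neg, e]
    refine lt_add V (lt_mul V hs1 ?_) (lt_mul V hT1 ?_)
    · repeat first | assumption | apply sub_mem | apply add_mem | apply mul_mem | apply pow_mem
    · repeat first | assumption | apply sub_mem | apply add_mem | apply mul_mem | apply pow_mem
  have hqk : aeval u (qq W c) ∈ k := by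
    rw [hu, aeval_algHom_apply]
    exact hjk _
  have hq0 := zero_of_lt V hkV hqk hlt
  obtain ⟨c', hc'⟩ := const_of_alg hxt hB g2 ⟨qq W c, qq_ne W c, hq0⟩
  refine hWr ?_
  rw [hc', derivative_mul, derivative_C]
  ring

end Pool.Agent.Helper57.TG.DEGX
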